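import Mathlib
import Pool.Agent.X173.EDC
set_option autoImplicit false

/-!
MP_10193a_al: for every abelian group `A`, if `End A` is right distributive (in particular, if it is
right uniserial) and centrally essential, then `End A` is commutative.
-/

namespace Pool.Agent.Results.MP_10193a_al.CommutativeEnd

open Pool.Agent.X173.ED

universe u

/-- The center of `R` is an essential submodule of `R`: for every nonzero `a` there are nonzero
central `x`, `y` with `a x = y`. -/
def CentrallyEssential (R : Type u) [Ring R] : Prop :=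
  ∀ a : R, a ≠ 0 → ∃ x ∈ Subring.center R, ∃ y ∈ Subring.center R, x ≠ 0 ∧ y ≠ 0 ∧ a * x = y

/-- The lattice of right ideals is distributive. -/
def RightDistributive (R : Type u) [Ring R] : Prop :=
  ∀ I J K : Submodule Rᵐᵒᵖ R, I ⊓ (J ⊔ K) = (I ⊓ J) ⊔ (I ⊓ K)

/-- The right ideals form a chain. -/
def RightUniserial (R : Type u) [Ring R] : Prop :=
  ∀ I J : Submodule Rᵐᵒᵖ R, I ≤ J ∨ J ≤ I

theorem distrib_of_uniserial {R : Type u} [Ring R] (h : RightUniserial R) :
    RightDistributive R := by
  intro I J K
  apply le_antisymm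
  · rcases h J K with hJK | hKJ
    · rw [sup_of_le_right hJK]; exact le_sup_right
    · rw [sup_of_le_left hKJ]; exact le_sup_left
  · exact sup_le (inf_le_inf_left _ le_sup_left) (inf_le_inf_left _ le_sup_right)

theorem main (A : Type u) [AddCommGroup A] (h1 : RightDistributive (AddMonoid.End A))
    (h2 : CentrallyEssential (AddMonoid.End A)) (f g : AddMonoid.End A) : f * g = g * f := by
  apply commutative (steph h1)
  intro a ha
  obtain ⟨x, hx, y, hy, hx0, hy0, hxy⟩ := h2 a ha
  exact ⟨x, y, fun r => Subring.mem_center_iff.mp hx r, fun r => Subring.mem_center_iff.mp hy r,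
    hx0, hy0, hxy⟩

/-- **Negative answers to Q1 and Q2.** -/
theorem result :
    (¬ ∃ (A : Type u) (_ : AddCommGroup A), RightDistributive (AddMonoid.End A) ∧
      CentrallyEssential (AddMonoid.End A) ∧ ¬ ∀ f g : AddMonoid.End A, f * g = g * f) ∧
    (¬ ∃ (A : Type u) (_ : AddCommGroup A), RightUniserial (AddMonoid.End A) ∧
      CentrallyEssential (AddMonoid.End A) ∧ ¬ ∀ f g : AddMonoid.End A, f * g = g * f) := by
  constructor
  · rintro ⟨A, _, h1, h2, h3⟩
    exact h3 (main A h1 h2)
  · rintro ⟨A, _, h1, h2, h3⟩
    exact h3 (main A (distrib_of_uniserial h1) h2)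

end Pool.Agent.Results.MP_10193a_al.CommutativeEnd
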